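import Mathlib
import Pool.Agent.Lib.MP_3c03ea_an.ModNull

/-!
# Haar measure on nilpotent covers of compact quotients of SL(2, ℝ) is nonsquashable
-/

set_option autoImplicit false

open MeasureTheory
open scoped MatrixGroups

namespace Pool.Agent.Results.MP_3c03ea_an.HaarNonsquashable

/-- The matrix `u_t` with rows `(1, t)` and `(0, 1)`. -/
def horo (t : ℝ) : SL(2, ℝ) := ⟨!![1, t; 0, 1], by simp [Matrix.det_fin_two_of]⟩

/-- `Λ` is a uniform lattice: a discrete subgroup of `SL(2, ℝ)` with compact quotient. -/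
structure UniformLattice (Λ : Subgroup SL(2, ℝ)) : Prop where
  discrete : DiscreteTopology Λ
  cocompact : CompactSpace (SL(2, ℝ) ⧸ Λ)

/-- `Γ` is a normal conilpotent subgroup of `Λ`. -/
def NormalConilpotent (Γ Λ : Subgroup SL(2, ℝ)) : Prop :=
  Γ ≤ Λ ∧ ∃ _ : (Γ.subgroupOf Λ).Normal, Group.IsNilpotent (Λ ⧸ Γ.subgroupOf Λ)

/-- `μ` is a Haar measure on `SL(2, ℝ) ⧸ Γ`: a nonzero Radon measure invariant under left
translation by all elements of `SL(2, ℝ)`. -/
structure IsHaarOn (Γ : Subgroup SL(2, ℝ)) [MeasurableSpace (SL(2, ℝ) ⧸ Γ)]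
    (μ : Measure (SL(2, ℝ) ⧸ Γ)) : Prop where
  ne_zero : μ ≠ 0
  radon : μ.Regular
  invariant : ∀ g : SL(2, ℝ), μ.map (fun x => g • x) = μ

/-- `Q` is an invertible nonsingular transformation with inverse `Q'`, everything modulo null
sets: both maps are measurable, preimages of null sets are null, and the two maps are inverse to
each other almost everywhere. -/
structure InvertibleNonsingular {X : Type} [MeasurableSpace X] (μ : Measure X)
    (Q Q' : X → X) : Prop where
  measurable : Measurable Q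
  measurable' : Measurable Q'
  null : ∀ A : Set X, μ A = 0 → μ (Q ⁻¹' A) = 0
  null' : ∀ A : Set X, μ A = 0 → μ (Q' ⁻¹' A) = 0
  left_inv : ∀ᵐ x ∂μ, Q' (Q x) = x
  right_inv : ∀ᵐ x ∂μ, Q (Q' x) = x

/-- `μ` is squashable: some invertible nonsingular transformation that commutes with each `u_t`
does not preserve `μ`. Invertibility and commutation are only required modulo null sets, so that
more transformations are allowed than in the definition with equality everywhere. -/
def Squashable (Γ : Subgroup SL(2, ℝ)) [MeasurableSpace (SL(2, ℝ) ⧸ Γ)]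
    (μ : Measure (SL(2, ℝ) ⧸ Γ)) : Prop :=
  ∃ Q Q' : SL(2, ℝ) ⧸ Γ → SL(2, ℝ) ⧸ Γ, InvertibleNonsingular μ Q Q' ∧
    (∀ t : ℝ, ∀ᵐ x ∂μ, Q (horo t • x) = horo t • Q x) ∧ μ.map Q ≠ μ

/-- Haar measure on `SL(2, ℝ) ⧸ Γ` is nonsquashable for the horocycle flow, for each normal
conilpotent subgroup `Γ` of each uniform lattice. -/
theorem result (Λ Γ : Subgroup SL(2, ℝ)) (hΛ : UniformLattice Λ) (hΓ : NormalConilpotent Γ Λ)
    [MeasurableSpace (SL(2, ℝ) ⧸ Γ)] [BorelSpace (SL(2, ℝ) ⧸ Γ)]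
    (μ : Measure (SL(2, ℝ) ⧸ Γ)) (hμ : IsHaarOn Γ μ) : ¬ Squashable Γ μ := by
  rintro ⟨Q, Q', hQ, hcomm, hne⟩
  obtain ⟨hle, hN, hnil⟩ := hΓ
  have hreg := hμ.radon
  have huu : horo = Pool.Agent.MP_3c03ea_an.u := by
    funext t
    apply Subtype.ext
    rfl
  rw [huu] at hcomm
  have hinv : SMulInvariantMeasure SL(2, ℝ) (SL(2, ℝ) ⧸ Γ) μ := by
    refine ⟨fun g s hs => ?_⟩
    have hm : Measurable (fun x : SL(2, ℝ) ⧸ Γ => g • x) := (continuous_const_smul g).measurable
    conv_rhs => rw [← hμ.invariant g]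
    rw [Measure.map_apply hm hs]
  apply hne
  exact Pool.Agent.MP_3c03ea_an.nonsquashable_pair Λ Γ hΛ.discrete hΛ.cocompact hle hnil μ
    hμ.ne_zero inferInstance hinv Q Q'
    ⟨hQ.measurable, Measure.AbsolutelyContinuous.mk fun s hs h0 => by
      rw [Measure.map_apply hQ.measurable hs]; exact hQ.null s h0⟩
    ⟨hQ.measurable', Measure.AbsolutelyContinuous.mk fun s hs h0 => by
      rw [Measure.map_apply hQ.measurable' hs]; exact hQ.null' s h0⟩
    hQ.left_inv hQ.right_inv hcomm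

end Pool.Agent.Results.MP_3c03ea_an.HaarNonsquashable
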